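import Pool.Agent.Q187.PJ.Main

/-!
# Assouad dimension of projections of self-similar sets

There is a self-similar set in `[0,1]³` which spans the whole space and whose orthogonal
projections onto a set of planes of positive measure have Assouad dimension strictly between the
Hausdorff dimension and `2`: it is at least `1` and at most `3/2`, while the Hausdorff dimension is
at most `1/2`.
-/

set_option autoImplicit false

open Set MeasureTheory ENNReal

namespace Pool.Agent.Results.MP_c72560_an.ProjectionsIntermediate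

/-- Three-dimensional Euclidean space. -/
abbrev E3 : Type := EuclideanSpace ℝ (Fin 3)

/-- The unit cube. -/
def cube : Set E3 := {x | ∀ i, 0 ≤ x i ∧ x i ≤ 1}

/-- The contracting similarities `S(x) = c O x + t` which map the cube into itself. -/
def IsContractingSimilarity (S : E3 → E3) : Prop :=
  (∃ (c : ℝ) (O : E3 ≃ₗᵢ[ℝ] E3) (t : E3), 0 < c ∧ c < 1 ∧ ∀ x, S x = c • O x + t) ∧
    ∀ x ∈ cube, S x ∈ cube

/-- Self-similar sets: `F` is the attractor (a non-empty compact subset of the cube with
`F = ⋃ S_i(F)`) of a finite non-empty family of contracting similarities mapping the cube into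
itself. -/
def IsSelfSimilar (F : Set E3) : Prop :=
  ∃ (ι : Type) (_ : Fintype ι) (_ : Nonempty ι) (S : ι → E3 → E3),
    (∀ i, IsContractingSimilarity (S i)) ∧ F.Nonempty ∧ IsCompact F ∧ F ⊆ cube ∧
      F = ⋃ i, S i '' F

/-- `N_r(E) ≤ n`: the set `E` is covered by at most `n` sets of diameter at most `r`. -/
def CovBy {X : Type} [MetricSpace X] (n r : ℝ) (E : Set X) : Prop :=
  ∃ 𝒰 : Finset (Set X), (𝒰.card : ℝ) ≤ n ∧ (∀ U ∈ 𝒰, Metric.ediam U ≤ ENNReal.ofReal r) ∧
    E ⊆ ⋃ U ∈ 𝒰, U

/-- The condition in the definition of the Assouad dimension. -/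
def AssouadBound {X : Type} [MetricSpace X] (F : Set X) (s C : ℝ) : Prop :=
  ∀ R > 0, ∀ r, 0 < r → r < R → ∀ x ∈ F, CovBy (C * (R / r) ^ s) r (Metric.ball x R ∩ F)

/-- The Assouad dimension. -/
noncomputable def assouadDim {X : Type} [MetricSpace X] (F : Set X) : ℝ :=
  sInf {s : ℝ | 0 ≤ s ∧ ∃ C : ℝ, 0 < C ∧ AssouadBound F s C}

/-- The orthogonal projection of the set `F` onto the plane orthogonal to `u`. -/
noncomputable def proj (F : Set E3) (u : E3) : Set E3 := (ℝ ∙ u)ᗮ.starProjection '' F

/-- The unit vectors for which the projection has Hausdorff dimension at most `1/2` and Assouad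
dimension between `1` and `3/2`. -/
def goodNormals (F : Set E3) : Set (Metric.sphere (0 : E3) 1) :=
  {u | dimH (proj F u) ≤ 1 / 2 ∧ 1 ≤ assouadDim (proj F u) ∧ assouadDim (proj F u) ≤ 3 / 2}

/-- The surface measure of the unit sphere. -/
noncomputable def surface : Measure (Metric.sphere (0 : E3) 1) := (volume : Measure E3).toSphere

/-- There is a self-similar set `F` in the unit cube of the space, not contained in a plane, such
that for a set of unit vectors `u` of positive surface measure the orthogonal projection of `F` onto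
the plane `u^⊥` has Hausdorff dimension at most `1/2` and Assouad dimension between `1` and
`3/2`. -/
theorem result : ∃ F : Set E3, IsSelfSimilar F ∧ affineSpan ℝ F = ⊤ ∧
    0 < surface (goodNormals F) := by
  obtain ⟨⟨ι, i1, i2, c, O, t, h1, h2, h3, h4, h5, h6⟩, h7, h8⟩ := Pool.Agent.Q187.PJ.final
  exact ⟨Pool.Agent.Q187.PJ.At Pool.Agent.Q187.PJ.dg, ⟨ι, i1, i2, fun i x => c i • O i x + t i,
    fun i => ⟨⟨c i, O i, t i, (h1 i).1, (h1 i).2, fun x => rfl⟩, h2 i⟩, h3, h4, h5, h6⟩, h7, h8⟩

end Pool.Agent.Results.MP_c72560_an.ProjectionsIntermediate
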